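import Pool.Agent.H633.W.Fin

/-!
# Martin's Maximum for posets of size `ℵ₁` does not imply Baumgartner's axiom

If there is a strongly inaccessible cardinal then there is a forcing extension in which `ω₁` is
preserved, `MM(ℵ₁)` holds (hence also `PFA(ℵ₁)`) and Baumgartner's axiom fails.
-/

set_option autoImplicit false

namespace Pool.Agent.Results.MP_8f49b0_lc.MaxAlephOneNotBA

open Cardinal Pool.Agent.Helper669.Forcing Pool.Agent.H633
open Pool.Agent.W684.FM (OmegaOnePreserved)

theorem result (hI : ∃ κ : Cardinal.{0}, κ.IsInaccessible) :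
    ∃ (P : Type) (_ : Preorder P), Nonempty P ∧ ∀ p : P, p ∈ OmegaOnePreserved P ∧
      p ∈ MMON P ∧ p ∈ fnot (BAN P) :=
  Pool.Agent.H633.W.exists_ext hI

end Pool.Agent.Results.MP_8f49b0_lc.MaxAlephOneNotBA
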